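import Mathlib
import Pool.Agent.N824.CD.EmbG

/-!
# A smooth 3-sphere in `ℝ⁴` bounds a smooth ball if and only if it bounds coarse balls

Let `φ₀` be a germ, along the unit sphere `S³`, of smooth embedding in `ℝ⁴`. The smooth
4-dimensional Schoenflies problem asks whether the smooth sphere `φ₀(S³)` bounds a smooth ball. By
theorems of Brown and Freedman it always bounds a topological ball.

We show that `φ₀` is the germ of a smooth embedding of the closed unit ball if and only if it is the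
germ of *coarse* balls: for `r` in a set `S` of scales accumulating at `0` (for instance a sequence)
a map `f r` from the closed unit ball to `ℝ⁴`, without any regularity besides local integrability,
each one at its own scale `r` and unrelated for different `r`. Near the sphere (on an open set `U`,
which may also contain other parts of the ball) `f r` is equal to a smooth embedding `F`. Near the
points outside `U`, on the ball of radius `2 r` about each point `p`, `f r` is *in the mean* within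
`δ r` of an affine map, the linear part `L` of which is injective with a margin: `m |v| ≤ |L v|`
with `C δ < m`; here `L`, `m`, `δ` depend on `p` and `r`, and `(1 + |L|) r ≤ δ τ(r)` where `τ` tends
to `0`. Moreover `f r` separates the points at distance at least `r / 2`, up to the factor `lam r`,
where `|L| ≤ H lam` and `C H⁴ δ ≤ lam`. Here `C` is any sufficiently large constant. The maps `f r`
may be discontinuous and their slopes may tend to zero or to infinity.
-/

set_option autoImplicit false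

open Set Filter Topology Metric MeasureTheory
open scoped ContDiff

noncomputable section

namespace Pool.Agent.Results.MP_6c077c_gt.CoarseBalls

/-- `ℝ⁴` -/
abbrev R4 := EuclideanSpace ℝ (Fin 4)

/-- Lebesgue measure on `ℝ⁴` -/
def vol4 : Measure R4 := volume

/-! In the following definitions `V = W = ℝ⁴` (with Lebesgue measure `μ` on `V`). -/

section

variable {V W : Type} [NormedAddCommGroup V] [NormedSpace ℝ V] [MeasurableSpace V]
  [NormedAddCommGroup W] [NormedSpace ℝ W]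

/-- the part over `U` of a smooth ball: `φ` is a smooth embedding of the part in `U` of the closed
unit ball; `U` contains the unit sphere -/
structure PartialBall (U : Set V) (φ : V → W) : Prop where
  sphere : ∀ z : V, ‖z‖ = 1 → z ∈ U
  smooth : ∀ z ∈ U, ‖z‖ ≤ 1 → ContDiffAt ℝ ∞ φ z
  inj : ∀ z ∈ U, ∀ w ∈ U, ‖z‖ ≤ 1 → ‖w‖ ≤ 1 → φ z = φ w → z = w
  imm : ∀ z ∈ U, ‖z‖ ≤ 1 → ∀ v, fderiv ℝ φ z v = 0 → v = 0

/-- smooth balls: smooth embeddings of the closed unit ball -/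
def SmoothBall (φ : V → W) : Prop := PartialBall univ φ

/-- `φ` and `φ₀` are equal near the unit sphere. -/
def SameGerm (φ φ₀ : V → W) : Prop := ∀ z : V, ‖z‖ = 1 → φ =ᶠ[𝓝 z] φ₀

/-- `h` is integrable on the ball of radius `R` about `p` and its distance to an affine map with
linear part `L` has integral at most `b` over this ball. -/
def AffineInMean (μ : Measure V) (h : V → W) (p : V) (R b : ℝ) (L : V →L[ℝ] W) : Prop :=
  IntegrableOn h (closedBall p R) μ ∧ ∃ c : W,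
    ∫ q in closedBall p R, ‖h q - c - L (q - p)‖ ∂μ ≤ b

/-- the coarse condition for the map `f` at the point `p` and the scale `r` -/
def CoarsePoint (μ : Measure V) (C lam H τ : ℝ) (f : V → W) (r : ℝ) (p : V) : Prop :=
  ∃ (L : V →L[ℝ] W) (δ m : ℝ), 0 ≤ δ ∧ (1 + ‖L‖) * r ≤ δ * τ ∧
    AffineInMean μ f p (2 * r) (δ * r ^ 5) L ∧ (∀ v, m * ‖v‖ ≤ ‖L v‖) ∧ C * δ < m ∧
    ‖L‖ ≤ H * lam ∧ C * H ^ 4 * δ ≤ lam

/-- the condition for the map `f` at the scale `r`: it is equal to `F` on `U`, and separates the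
points at distance at least `r / 2` -/
def AtScale (U : Set V) (F : V → W) (lam H r : ℝ) (f : V → W) : Prop :=
  0 < lam ∧ 1 ≤ H ∧ (∀ z ∈ U, ‖z‖ ≤ 1 → f z = F z) ∧
    ∀ q q' : V, ‖q‖ ≤ 1 → ‖q'‖ ≤ 1 → r / 2 ≤ ‖q - q'‖ → lam * r ≤ ‖f q - f q'‖

/-- coarse balls with the germ `φ₀` at the unit sphere -/
def HasCoarseBalls (μ : Measure V) (C : ℝ) (φ₀ : V → W) : Prop :=
  ∃ (U : Set V) (F : V → W) (S : Set ℝ) (f : ℝ → V → W) (lam H τ : ℝ → ℝ),
    IsOpen U ∧ PartialBall U F ∧ SameGerm F φ₀ ∧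
    (0 : ℝ) ∈ closure (S ∩ Ioi 0) ∧ Tendsto τ (𝓝[>] 0) (𝓝 0) ∧
    (∀ r ∈ S, 0 < r → AtScale U F (lam r) (H r) r (f r)) ∧
    ∀ x : V, ‖x‖ < 1 → x ∉ U → ∃ ρ : ℝ, 0 < ρ ∧ ∀ p : V, ‖p - x‖ < ρ → ∀ r ∈ S, 0 < r →
      r < ρ → CoarsePoint μ C (lam r) (H r) (τ r) (f r) r p

end

theorem result : ∃ C₀ : ℝ, ∀ C : ℝ, C₀ ≤ C → ∀ φ₀ : R4 → R4,
    (∃ φ, SmoothBall φ ∧ SameGerm φ φ₀) ↔ HasCoarseBalls vol4 C φ₀ := by
  refine ⟨Pool.Agent.N824.CD.CE 4, fun C hC φ₀ => ⟨?_, ?_⟩⟩
  · rintro ⟨φ, hφ, hg⟩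
    have hs : ∀ x : R4, ‖x‖ ≤ 1 → ContDiffAt ℝ ∞ φ x := fun x hx => hφ.smooth x (mem_univ x) hx
    obtain ⟨τ, lam, H, h1, h2, h3, h4, h5⟩ := Pool.Agent.N824.CD.backG C hs
      (fun x y hx hy => hφ.inj x (mem_univ x) y (mem_univ y) hx hy)
      (fun x hx => hφ.imm x (mem_univ x) hx)
    refine ⟨{z | 1 / 2 < ‖z‖}, φ, Ioi 0, fun _ => φ, fun _ => lam, fun _ => H, τ,
      isOpen_lt continuous_const continuous_norm, ?_, hg, ?_, h1,
      fun r _ hr => ⟨h2, h3, fun _ _ _ => rfl, h4 r hr⟩, fun x hx _ => ?_⟩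
    · exact ⟨fun z hz => by simp [hz]; norm_num, fun z _ => hs z,
        fun z _ w _ => hφ.inj z (mem_univ z) w (mem_univ w), fun z _ => hφ.imm z (mem_univ z)⟩
    · rw [inter_self, closure_Ioi]
      exact self_mem_Ici
    · obtain ⟨ρ, hρ, hh⟩ := h5 x hx
      refine ⟨ρ, hρ, fun p hp r _ h0 hrρ => ?_⟩
      obtain ⟨L, δ, c, a1, a2, ⟨a3, a4⟩, ⟨m, a5, a6⟩, a7, a8⟩ := hh p hp r h0 hrρ
      exact ⟨L, δ, m, a1, a2, ⟨a3, c, a4⟩, a5, a6, a7, a8⟩
  · rintro ⟨U, F, S, f, lam, H, τ, hU, hF, hg, hS, hτ, hr, hc⟩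
    have hS' : (0 : ℝ) ∈ closure ((S ∩ Ioi 0) ∩ Ioi 0) := by
      rwa [inter_assoc, inter_self]
    have hD : Pool.Agent.N824.CD.CData 4 U F (S ∩ Ioi 0) f τ
        (Pool.Agent.N824.CD.QG C lam H) :=
      { oU := hU
        sph := hF.sphere
        F0s := hF.smooth
        acc := hS'
        τ0 := hτ
        eqU := fun r hr' => (hr r hr'.1 hr'.2).2.2.1
        good := fun x hx hxU => by
          obtain ⟨ρ, hρ, hcp⟩ := hc x hx hxU
          refine ⟨ρ, hρ, fun p hp r hr' h0 hrρ => ?_⟩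
          obtain ⟨L, δ, m, h1, h2, ⟨h3, c, h4⟩, h5, h6, h7, h8⟩ := hcp p hp r hr'.1 h0 hrρ
          exact ⟨L, δ, c, h1, h2, ⟨h3, h4⟩, ⟨m, h5, h6⟩, h7, h8⟩ }
    obtain ⟨φ, k1, k2, k3, k5⟩ := Pool.Agent.N824.CD.embG hC hD
      (fun r hr' h0 => ⟨(hr r hr'.1 h0).1, (hr r hr'.1 h0).2.1⟩)
      (fun r hr' h0 => (hr r hr'.1 h0).2.2.2) hF.inj hF.imm
    exact ⟨φ, ⟨fun _ _ => mem_univ _, fun z _ hz => k1 z hz, fun z _ w _ hz hw => k2 z w hz hw,
      fun z _ hz => k3 z hz⟩, fun z hz => (k5 z hz).trans (hg z hz)⟩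

end Pool.Agent.Results.MP_6c077c_gt.CoarseBalls
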