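import Pool.Agent.N550.OC.Fin
import Pool.Agent.N550.OC.P1A
import Pool.Agent.N550.OC.P1B
import Pool.Agent.N550.OC.SA
import Pool.Agent.N550.OC.P2A
import Pool.Agent.N550.OC.P2
import Pool.Agent.N550.OC.ROT

/-!
# Smooth 4-balls and homeomorphisms with one isolated singular point

Let `M` be a smooth 4-manifold with boundary (for instance one of the two pieces bounded by a smooth
3-sphere in `S⁴`) and let `D` be the closed unit ball of `ℝ⁴`. By a theorem of Mazur, each piece
bounded by a smooth 3-sphere in `S⁴` has a homeomorphism onto `D` which is regular (smooth with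
bijective derivative) at all the points but one interior point `x₀`; the smooth Schoenflies problem
asks whether it is diffeomorphic to `D`.

**Theorem.** `M` is diffeomorphic to `D` if and only if there is such a homeomorphism `h` of `M` with
`D`, regular at all the points but one interior point `x₀`, for which *one* linear coordinate of `h` is
smooth near `x₀` with nonzero derivative at `x₀`. No condition is imposed on the other coordinates at
`x₀`.

Project OC: the lemmas were proved by helpers 82 118 213 323 335 380 398 438 619 918.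
-/

set_option autoImplicit false

open Set Filter Topology Metric Function
open scoped Manifold ContDiff

noncomputable section

namespace Pool.Agent.Results.MP_6c077c_gt.OneCoordinate

/-- `ℝ⁴` -/
abbrev R4 : Type := EuclideanSpace ℝ (Fin 4)

/-- the closed half-space of `ℝ⁴`, the model of the 4-manifolds with boundary -/
abbrev H4 : Type := EuclideanHalfSpace 4

section defs

variable {M : Type} [TopologicalSpace M] [ChartedSpace H4 M]

/-- `x` is an interior point of the manifold with boundary `M` -/
def IsInterior (x : M) : Prop := x ∈ (𝓡∂ 4).interior M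

/-- `h` is a homeomorphism of `M` with the closed unit ball of `ℝ⁴` -/
def IsHomeoToBall (h : M → R4) : Prop := IsEmbedding h ∧ range h = closedBall 0 1

/-- `f` is of class `C^∞` near `x` -/
def SmoothNear (f : M → R4) (x : M) : Prop := ∀ᶠ y in 𝓝 x, ContMDiffAt (𝓡∂ 4) (𝓡 4) ∞ f y

/-- the derivative of `f` at `x`, as a linear map from `ℝ⁴` to `ℝ⁴` (in the preferred chart) -/
def der (f : M → R4) (x : M) : R4 →L[ℝ] R4 := mfderiv (𝓡∂ 4) (𝓡 4) f x

/-- `h` is regular at `x` (an interior or boundary point): smooth near `x`, with bijective derivative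
at `x` -/
def Regular (h : M → R4) (x : M) : Prop := SmoothNear h x ∧ Bijective (der h x)

/-- the real function `u` is of class `C^∞` near `x` -/
def SmoothFunNear (u : M → ℝ) (x : M) : Prop := ∀ᶠ y in 𝓝 x, ContMDiffAt (𝓡∂ 4) 𝓘(ℝ, ℝ) ∞ u y

/-- the differential of the real function `u` at `x` (in the preferred chart) -/
def dif (u : M → ℝ) (x : M) : R4 →L[ℝ] ℝ := mfderiv (𝓡∂ 4) 𝓘(ℝ, ℝ) u x

/-- some linear coordinate of `h` is smooth near `x`, with nonzero differential at `x` -/
def OneSmoothCoordinate (h : M → R4) (x : M) : Prop :=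
  ∃ ℓ : R4 →L[ℝ] ℝ, SmoothFunNear (fun z => ℓ (h z)) x ∧ dif (fun z => ℓ (h z)) x ≠ 0

/-- `M` is diffeomorphic to the closed unit ball of `ℝ⁴` -/
def DiffeoToBall (M : Type) [TopologicalSpace M] [ChartedSpace H4 M] : Prop :=
  ∃ H : M → R4, IsHomeoToBall H ∧ ∀ x, Regular H x

/-- some homeomorphism of `M` with the closed unit ball is regular at all the points but one interior
point, near which one of its coordinates is smooth, with nonzero differential at this point -/
def OneCoordinateBall (M : Type) [TopologicalSpace M] [ChartedSpace H4 M] : Prop :=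
  ∃ (h : M → R4) (x₀ : M), IsHomeoToBall h ∧ IsInterior x₀ ∧ (∀ x, x ≠ x₀ → Regular h x) ∧
    OneSmoothCoordinate h x₀

end defs

/-- **The theorem.** -/
theorem result (M : Type) [TopologicalSpace M] [ChartedSpace H4 M] [IsManifold (𝓡∂ 4) ∞ M] :
    DiffeoToBall M ↔ OneCoordinateBall M := by
  constructor
  · rintro ⟨H, h1, h2⟩
    obtain ⟨x₀, h3, h4⟩ := Pool.Agent.N550.OC.Fin.conv H h1 h2
    exact ⟨H, x₀, h1, h3, fun x _ => h2 x, h4⟩
  · rintro ⟨h, x₀, h1, h2, h3, h4⟩
    obtain ⟨H, H1, H2⟩ := Pool.Agent.N550.OC.Fin.main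
      (Pool.Agent.N550.OC.P2.main Pool.Agent.N550.OC.P1A.main Pool.Agent.N550.OC.P1B.main
        Pool.Agent.N550.OC.SA.main Pool.Agent.N550.OC.P2A.main)
      Pool.Agent.N550.OC.ROT.main M h x₀ h1 h2 h3 h4
    exact ⟨H, H1, fun x => H2 x⟩

end Pool.Agent.Results.MP_6c077c_gt.OneCoordinate
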